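import Pool.Agent.H480Z.BetaFinal

set_option autoImplicit false

namespace Pool.Agent.H370Z.BetaOmega

open Pool.Agent.H480Z.Beta Filter Topology

/-- The convergent sequence mapped onto its copy in the Cantor set. -/
def toK1 : OnePoint ℕ → K1
  | OnePoint.infty => pinf
  | (n : ℕ) => pa n

theorem toK1_cont : Continuous toK1 := by
  rw [OnePoint.continuous_iff_from_nat]
  exact tendsto_pa

theorem toK1_bij : Function.Bijective toK1 := by
  constructor
  · intro x y h
    induction x using OnePoint.rec with
    | infty =>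
      induction y using OnePoint.rec with
      | infty => rfl
      | coe m =>
        have h' : pinf = pa m := h
        have := congrFun (congrArg Subtype.val h') m
        simp [pinf, pa] at this
    | coe n =>
      induction y using OnePoint.rec with
      | infty =>
        have h' : pa n = pinf := h
        have := congrFun (congrArg Subtype.val h') n
        simp [pinf, pa] at this
      | coe m =>
        have h' : pa n = pa m := h
        have := congrFun (congrArg Subtype.val h') n
        have h2 : n = m := by simpa [pa] using this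
        rw [h2]
  · intro g
    rcases K1_cases g with rfl | ⟨n, rfl⟩
    · exact ⟨OnePoint.infty, rfl⟩
    · exact ⟨(n : OnePoint ℕ), rfl⟩

/-- The homeomorphism. -/
noncomputable def hK : OnePoint ℕ ≃ₜ K1 :=
  Continuous.homeoOfEquivCompactToT2 (f := Equiv.ofBijective toK1 toK1_bij) toK1_cont

theorem equiv_of_homeo {X Y : Type*} [TopologicalSpace X] [TopologicalSpace Y] [CompactSpace X]
    [CompactSpace Y] (h : X ≃ₜ Y) : Nonempty (C(X, ℝ) ≃L[ℝ] C(Y, ℝ)) :=
  ⟨ContinuousLinearEquiv.equivOfInverse (pre (h.symm : C(Y, X))) (pre (h : C(X, Y)))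
    (fun f => ContinuousMap.ext fun x => congrArg f (h.symm_apply_apply x))
    (fun f => ContinuousMap.ext fun y => congrArg f (h.apply_symm_apply y))⟩

theorem iso_K1 : Nonempty (C(S × S × K1, ℝ) ≃L[ℝ] C(S × S, ℝ)) := by
  refine pelczynski (Compl.trans ?_ compl_main) ?_ (square _) (square _)
  · refine compl_of_retract ((ContinuousMap.id S).prodMap ((ContinuousMap.id S).prodMap
      ⟨Subtype.val, continuous_subtype_val⟩))
      ((ContinuousMap.id S).prodMap ((ContinuousMap.id S).prodMap retr)) ?_
    rintro ⟨s, t, g⟩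
    exact Prod.ext rfl (Prod.ext rfl (retr_val g))
  · refine compl_of_retract ⟨fun p => (p.1, p.2, pinf), by fun_prop⟩
      ⟨fun p => (p.1, p.2.1), by fun_prop⟩ ?_
    rintro ⟨s, t⟩
    rfl

theorem iso_omega : Nonempty (C(OnePoint ℕ × S × S, ℝ) ≃L[ℝ] C(S × S, ℝ)) := by
  obtain ⟨a⟩ := iso_K1
  obtain ⟨b⟩ := equiv_of_homeo (X := OnePoint ℕ × S × S) (Y := S × S × K1)
    ((Homeomorph.prodComm _ _).trans ((Homeomorph.prodAssoc _ _ _).trans
      ((Homeomorph.refl S).prodCongr ((Homeomorph.refl S).prodCongr hK))))
  exact ⟨b.trans a⟩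

end Pool.Agent.H370Z.BetaOmega
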